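import Mathlib
import Pool.Agent.H11.Stars

namespace Pool.Agent.Results.MP_0c0609_co.FiniteIffLeFour

open Pool.Agent.H11.Stars

theorem nec' {n : ℕ} (m : Fin n → ℕ) (h : EqChoosable (stars m) 2) (σ : Equiv.Perm (Fin n))
    (T : Fin n → Prop) [DecidablePred T] : ∃ ε : Fin n → Bool,
      ∑ i, (if T i then m (σ i) / 4 else if ε i then m (σ i) else 1) ≤
        (∑ i, (m (σ i) + 1) + 1) / 2 ∧
      ∑ i, (if T i then m (σ i) / 4 else if ε i then 1 else m (σ i)) ≤
        (∑ i, (m (σ i) + 1) + 1) / 2 := by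
  obtain ⟨ε, h1, h2⟩ := nec m h (fun i => T (σ.symm i))
  rw [← Equiv.sum_comp σ] at h1 h2
  rw [← Equiv.sum_comp σ (fun i => m i + 1)] at h1 h2
  simp only [Equiv.symm_apply_apply] at h1 h2
  exact ⟨fun i => ε (σ i), h1, h2⟩

theorem bound (n : ℕ) (h2 : 2 ≤ n) (h4 : n ≤ 4) (m : Fin n → ℕ) (hm : ∀ i, 1 ≤ m i)
    (h : EqChoosable (stars m) 2) : ∀ i, m i ≤ 200 := by
  have mono := Tuple.monotone_sort m
  set σ := Tuple.sort m
  have hN := nec' m h σ
  suffices ∀ i, m (σ i) ≤ 200 by
    intro i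
    simpa using this (σ.symm i)
  have hm' : ∀ i, 1 ≤ m (σ i) := fun i => hm _
  have mono' : ∀ i j, i ≤ j → m (σ i) ≤ m (σ j) := fun i j hij => mono hij
  generalize hs : (fun i => m (σ i)) = s
  have hs' : ∀ i, m (σ i) = s i := fun i => congrFun hs i
  simp only [hs'] at hN hm' mono' ⊢
  interval_cases n
  · obtain ⟨e, e1, e2⟩ := hN (fun _ => False)
    obtain ⟨f, f1, f2⟩ := hN (fun i => i = 0)
    have := mono' 0 1 (by decide)
    simp [Fin.sum_univ_two] at e1 e2 f1 f2
    have : s 1 ≤ 200 := by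
      cases h0 : e 0 <;> cases h1 : e 1 <;> cases h3 : f 1 <;> simp [h0, h1, h3] at e1 e2 f1 f2 <;>
        omega
    intro i
    exact (mono' i 1 (Fin.le_last i)).trans this
  · obtain ⟨e, e1, e2⟩ := hN (fun _ => False)
    obtain ⟨f, f1, f2⟩ := hN (fun i => i = 1)
    have := mono' 0 1 (by decide)
    have := mono' 1 2 (by decide)
    have := hm' 0
    simp [Fin.sum_univ_three] at e1 e2 f1 f2
    have k1 : s 2 + 1 + s 1 / 4 ≤ (s 0 + 1 + (s 1 + 1) + (s 2 + 1) + 1) / 2 := by
      cases h0 : f 0 <;> cases h1 : f 2 <;> simp [h0, h1] at f1 f2 <;> omega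
    have : s 2 ≤ 200 := by
      cases h0 : e 0 <;> cases h1 : e 1 <;> cases h3 : e 2 <;> simp [h0, h1, h3] at e1 e2 <;>
        omega
    intro i
    exact (mono' i 2 (Fin.le_last i)).trans this
  · obtain ⟨e, e1, e2⟩ := hN (fun _ => False)
    obtain ⟨f, f1, f2⟩ := hN (fun i => i = 2)
    obtain ⟨g, g1, g2⟩ := hN (fun i => i = 0)
    have := mono' 0 1 (by decide)
    have := mono' 1 2 (by decide)
    have := mono' 2 3 (by decide)
    have := hm' 0
    simp [Fin.sum_univ_four] at e1 e2 f1 f2 g1 g2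
    have k1 : s 3 + 2 + s 2 / 4 ≤ (s 0 + 1 + (s 1 + 1) + (s 2 + 1) + (s 3 + 1) + 1) / 2 := by
      cases h0 : f 0 <;> cases h1 : f 1 <;> cases h2 : f 3 <;> simp [h0, h1, h2] at f1 f2 <;> omega
    have k2 : s 1 + s 2 + 1 + s 0 / 4 ≤
        (s 0 + 1 + (s 1 + 1) + (s 2 + 1) + (s 3 + 1) + 1) / 2 := by
      cases h0 : g 1 <;> cases h1 : g 2 <;> cases h2 : g 3 <;> simp [h0, h1, h2] at g1 g2 <;> omega
    clear f1 f2 g1 g2
    have : s 3 ≤ 200 := by
      cases h0 : e 0 <;> cases h1 : e 1 <;> cases h3 : e 2 <;> cases h4 : e 3 <;>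
        simp [h0, h1, h3, h4] at e1 e2 <;> omega
    intro i
    exact (mono' i 3 (Fin.le_last i)).trans this

def fam (r k : ℕ) (i : Fin (r + 5)) : ℕ :=
  if i.val < 2 then 3 * k + 1 else if i.val < 5 then 2 * k + 1 else 1

theorem fam_ok (r k : ℕ) : EqChoosable (stars (fam r k)) 2 := by
  have z : ∀ i : Fin r, fam r k i.succ.succ.succ.succ.succ = 1 := by
    intro i
    simp [fam]
  have v0 : fam r k 0 = 3 * k + 1 := rfl
  have v1 : fam r k (Fin.succ 0) = 3 * k + 1 := rfl
  have v2 : fam r k (Fin.succ (Fin.succ 0)) = 2 * k + 1 := rfl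
  have v3 : fam r k (Fin.succ (Fin.succ (Fin.succ 0))) = 2 * k + 1 := rfl
  have v4 : fam r k (Fin.succ (Fin.succ (Fin.succ (Fin.succ 0)))) = 2 * k + 1 := rfl
  refine suff _ (fun i => by unfold fam; split_ifs <;> omega) (6 * k + 5 + r) ?_ (fun A => ?_)
  · simp only [Fin.sum_univ_succ, z, v0, v1, v2, v3, v4]
    simp
    omega
  · have key : ∀ a0 a1 a2 a3 a4 : Bool, ∃ e0 e1 e2 e3 e4 : Bool,
        2 * ((if a0 && e0 then 3 else 0) + (if a1 && e1 then 3 else 0) +
          (if a2 && e2 then 2 else 0) + (if a3 && e3 then 2 else 0) +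
          (if a4 && e4 then 2 else 0)) ≤
        2 * ((if a0 && !e0 then 3 else 0) + (if a1 && !e1 then 3 else 0) +
          (if a2 && !e2 then 2 else 0) + (if a3 && !e3 then 2 else 0) +
          (if a4 && !e4 then 2 else 0)) + ((if a0 then 0 else 3) + (if a1 then 0 else 3) +
          (if a2 then 0 else 2) + (if a3 then 0 else 2) + (if a4 then 0 else 2)) ∧
        2 * ((if a0 && !e0 then 3 else 0) + (if a1 && !e1 then 3 else 0) +
          (if a2 && !e2 then 2 else 0) + (if a3 && !e3 then 2 else 0) +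
          (if a4 && !e4 then 2 else 0)) ≤
        2 * ((if a0 && e0 then 3 else 0) + (if a1 && e1 then 3 else 0) +
          (if a2 && e2 then 2 else 0) + (if a3 && e3 then 2 else 0) +
          (if a4 && e4 then 2 else 0)) + ((if a0 then 0 else 3) + (if a1 then 0 else 3) +
          (if a2 then 0 else 2) + (if a3 then 0 else 2) + (if a4 then 0 else 2)) := by
      decide +kernel
    obtain ⟨e0, e1, e2, e3, e4, k1, k2⟩ := key (A 0) (A (Fin.succ 0)) (A (Fin.succ (Fin.succ 0)))
      (A (Fin.succ (Fin.succ (Fin.succ 0)))) (A (Fin.succ (Fin.succ (Fin.succ (Fin.succ 0)))))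
    have k3 := Nat.mul_le_mul_right k k1
    have k4 := Nat.mul_le_mul_right k k2
    refine ⟨Fin.cons e0 (Fin.cons e1 (Fin.cons e2 (Fin.cons e3 (Fin.cons e4 (fun _ => true))))),
      ?_⟩
    simp only [Fin.sum_univ_succ, z, v0, v1, v2, v3, v4, Fin.cons_zero, Fin.cons_succ, ite_self]
    have a3 : ∀ (a e : Bool) (t : ℕ), (if a then (if e then t * k + 1 else 1) else 0) =
        (if a && e then t else 0) * k + (if a then 1 else 0) := by
      intro a e t
      cases a <;> cases e <;> simp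
    have a4 : ∀ (a e : Bool) (t : ℕ), (if a then (if e then 1 else t * k + 1) else 0) =
        (if a && !e then t else 0) * k + (if a then 1 else 0) := by
      intro a e t
      cases a <;> cases e <;> simp
    have a5 : ∀ (a : Bool) (t : ℕ), (if a then 0 else t * k + 1 + 1) =
        (if a then 0 else t) * k + (if a then 0 else 2) := by
      intro a t
      cases a <;> simp
    simp only [a3, a4, a5]
    constructor <;> nlinarith [Nat.zero_le (∑ i : Fin r, if A i.succ.succ.succ.succ.succ then 0 else 1 + 1),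
      Nat.zero_le (if A 0 then 0 else 2), Nat.zero_le (if A (Fin.succ 0) then 0 else 2),
      Nat.zero_le (if A (Fin.succ (Fin.succ 0)) then 0 else 2),
      Nat.zero_le (if A (Fin.succ (Fin.succ (Fin.succ 0))) then 0 else 2),
      Nat.zero_le (if A (Fin.succ (Fin.succ (Fin.succ (Fin.succ 0)))) then 0 else 2)]

theorem result : ∀ n : ℕ, 2 ≤ n →
    ({s : Multiset ℕ | ∃ m : Fin n → ℕ, (∀ i, 1 ≤ m i) ∧ s = Finset.univ.val.map m ∧
      EqChoosable (stars m) 2}.Finite ↔ n ≤ 4) := by
  intro n hn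
  constructor
  · intro hfin
    by_contra h5
    obtain ⟨r, rfl⟩ : ∃ r, n = r + 5 := ⟨n - 5, by omega⟩
    refine Set.infinite_of_injective_forall_mem
      (f := fun k : ℕ => Finset.univ.val.map (fam r k)) ?_ ?_ hfin
    · intro k l hkl
      have h1 := congrArg Multiset.sum hkl
      have e : ∀ k, (Finset.univ.val.map (fam r k)).sum = 12 * k + 5 + r := by
        intro k
        change ∑ i, fam r k i = _
        have z : ∀ i : Fin r, fam r k i.succ.succ.succ.succ.succ = 1 := by
          intro i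
          simp [fam]
        have v0 : fam r k 0 = 3 * k + 1 := rfl
        have v1 : fam r k (Fin.succ 0) = 3 * k + 1 := rfl
        have v2 : fam r k (Fin.succ (Fin.succ 0)) = 2 * k + 1 := rfl
        have v3 : fam r k (Fin.succ (Fin.succ (Fin.succ 0))) = 2 * k + 1 := rfl
        have v4 : fam r k (Fin.succ (Fin.succ (Fin.succ (Fin.succ 0)))) = 2 * k + 1 := rfl
        simp only [Fin.sum_univ_succ, z, v0, v1, v2, v3, v4]
        simp
        omega
      simp only [e] at h1
      omega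
    · intro k
      exact ⟨fam r k, fun i => by unfold fam; split_ifs <;> omega, rfl, fam_ok r k⟩
  · intro h4
    refine ((Set.Finite.pi' (fun _ : Fin n => Set.finite_le_nat 200)).image
      (fun m => Finset.univ.val.map m)).subset ?_
    rintro s ⟨m, h1, rfl, h3⟩
    exact ⟨m, bound n hn h4 m h1 h3, rfl⟩

end Pool.Agent.Results.MP_0c0609_co.FiniteIffLeFour
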